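import Pool.Agent.Q91.TE.Coset2

set_option autoImplicit false
set_option linter.unusedSectionVars false

universe u

namespace Pool.Agent.Results.MP_0f25e6_al.CoamenableSubgroups

open Pool.Agent.Q91.TE

/-- `α * f` is nonzero for every nonzero square-summable `f`, where
`(α * f)(g) = ∑ α(k) f(k⁻¹ g)`. -/
def Regular {G : Type u} [Group G] (α : G →₀ ℂ) : Prop :=
  ∀ f : G → ℂ, Memℓp f 2 → f ≠ 0 → ∃ g : G, ∑ k ∈ α.support, α k * f (k⁻¹ * g) ≠ 0

/-- All square-summable `f` with `α * f = 0`. -/
def kernel {G : Type u} [Group G] (α : G →₀ ℂ) : Set (lp (fun _ : G => ℂ) 2) :=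
  {f | ∀ g : G, ∑ k ∈ α.support, α k * f (k⁻¹ * g) = 0}

open Classical in
/-- The von Neumann dimension of the kernel of left convolution by `α`: one minus the square of the
distance from the basis vector at the identity of `G` to the kernel (this is the squared length of
the projection of that vector to the kernel). -/
noncomputable def kerDim {G : Type u} [Group G] (α : G →₀ ℂ) : ℝ :=
  1 - Metric.infDist (lp.single 2 (1 : G) (1 : ℂ)) (kernel α) ^ 2

/-- All square-summable `f` with `α * f = 0` which are zero outside the union of the cosets `gK`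
in the finite set `F`. -/
def kernelOn {G : Type u} [Group G] (K : Subgroup G) (F : Finset (G ⧸ K)) (α : G →₀ ℂ) :
    Set (lp (fun _ : G => ℂ) 2) :=
  {f | f ∈ kernel α ∧ ∀ g : G, (g : G ⧸ K) ∉ F → f g = 0}

open Classical in
/-- The von Neumann dimension over `K` of the space `kernelOn K F α` (on which `K` acts from the
right): the sum over the cosets `x` in `F` of one minus the square of the distance from the basis
vector at a representative `r x` of `x` to this space. -/
noncomputable def dimOn {G : Type u} [Group G] (K : Subgroup G) (F : Finset (G ⧸ K))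
    (r : G ⧸ K → G) (α : G →₀ ℂ) : ℝ :=
  ∑ x ∈ F, (1 - Metric.infDist (lp.single (E := fun _ : G => ℂ) 2 (r x) (1 : ℂ))
    (kernelOn K F α) ^ 2)

/-- The cosets `y` such that `s⁻¹ y` is in `F` for some but not for all `s` in the support. -/
def boundary {G : Type u} [Group G] (K : Subgroup G) (F : Finset (G ⧸ K)) (α : G →₀ ℂ) :
    Set (G ⧸ K) :=
  {y | (∃ s ∈ α.support, s⁻¹ • y ∈ F) ∧ ∃ s ∈ α.support, s⁻¹ • y ∉ F}

/-- The subgroup `K` is co-amenable: the set `G / K` of cosets `gK` has nonempty finite subsets that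
are almost invariant under any given finite subset of `G` (Følner's condition). -/
def CoAmenable {G : Type u} [Group G] (K : Subgroup G) : Prop :=
  ∀ (S : Finset G) (ε : ℝ), 0 < ε → ∃ F : Finset (G ⧸ K), F.Nonempty ∧
    (({x | x ∈ F ∧ ∃ s ∈ S, s • x ∉ F} : Set (G ⧸ K)).ncard : ℝ) ≤ ε * F.card

section
variable {G : Type u} [Group G]

theorem kerDim_eq (α : G →₀ ℂ) : kerDim α = kDim α := rfl

theorem dimOn_eq (K : Subgroup G) (F : Finset (G ⧸ K)) (r : G ⧸ K → G) (α : G →₀ ℂ) :
    dimOn K F r α = dimF K F r α := rfl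

theorem boundary_eq (K : Subgroup G) (F : Finset (G ⧸ K)) (α : G →₀ ℂ)
    [DecidableEq (G ⧸ K)] : (boundary K F α).ncard = (bdF K F α).card := by
  have h1 : boundary K F α = Subtype.val '' (bdF K F α : Set (imF K F α.support)) := by
    ext y
    constructor
    · rintro ⟨⟨s, hs, hsF⟩, h2⟩
      have h3 := mem_imF K F hs hsF
      rw [smul_inv_smul] at h3
      exact ⟨⟨y, h3⟩, Finset.mem_coe.2 (Finset.mem_filter.2 ⟨Finset.mem_univ _, h2⟩), rfl⟩
    · rintro ⟨⟨y, hy⟩, h2, rfl⟩
      refine ⟨?_, (Finset.mem_filter.1 (Finset.mem_coe.1 h2)).2⟩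
      obtain ⟨⟨s, x⟩, h3, h4⟩ := Finset.mem_image.1 hy
      obtain ⟨hs, hx⟩ := Finset.mem_product.1 h3
      refine ⟨s, hs, ?_⟩
      change s⁻¹ • y ∈ F
      rw [← h4, inv_smul_smul]
      exact hx
  rw [h1, Set.ncard_image_of_injective _ Subtype.val_injective, Set.ncard_coe_finset]

theorem two_sided (K : Subgroup G) (F : Finset (G ⧸ K)) (r : G ⧸ K → G)
    (hr : ∀ x, (r x : G ⧸ K) = x) (α : G →₀ ℂ) :
    F.card * kerDim α - (boundary K F α).ncard ≤ dimOn K F r α ∧
      dimOn K F r α ≤ F.card * kerDim α := by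
  classical
  refine ⟨?_, coset_upper K F r α⟩
  rw [boundary_eq, dimOn_eq, dimF_eq K F r hr, kerDim_eq, kDim_eq]
  exact coset_lower K F r hr α

theorem exists_of_small (K : Subgroup G) (F : Finset (G ⧸ K)) (α : G →₀ ℂ)
    (h : ((boundary K F α).ncard : ℝ) < F.card * kerDim α) : ∃ f ∈ kernelOn K F α, f ≠ 0 := by
  have h1 := (two_sided K F Quotient.out (fun x => Quotient.out_eq x) α).1
  exact exists_of_pos K F Quotient.out α (by rw [← dimOn_eq]; linarith)

theorem kerDim_pos (α : G →₀ ℂ) (h : ¬ Regular α) : 0 < kerDim α := by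
  by_contra hcon
  push Not at hcon
  apply h
  apply (W649.ZL.regular_iff α).2
  apply W649.ZL.injective_of_vd_eq_zero _ (W649.ZL.cop_eqv _)
  rw [← kDim_eq]
  exact hcon

theorem small_boundary (K : Subgroup G) (hK : CoAmenable K) (α : G →₀ ℂ) (ε : ℝ) (hε : 0 < ε) :
    ∃ F : Finset (G ⧸ K), F.Nonempty ∧ ((boundary K F α).ncard : ℝ) ≤ ε * F.card := by
  classical
  set S := α.support with hS
  set ε' : ℝ := ε / (S.card + 1) with hε'
  have hε'0 : 0 < ε' := by positivity
  obtain ⟨F, hF, hb⟩ := hK ((S ×ˢ S).image fun p => p.1⁻¹ * p.2) ε' hε'0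
  refine ⟨F, hF, ?_⟩
  set B : Finset (G ⧸ K) := F.filter fun x => ∃ s ∈ (S ×ˢ S).image fun p => p.1⁻¹ * p.2,
    s • x ∉ F with hB
  have hBn : ({x | x ∈ F ∧ ∃ s ∈ (S ×ˢ S).image fun p => p.1⁻¹ * p.2, s • x ∉ F} :
      Set (G ⧸ K)).ncard = B.card := by
    rw [← Set.ncard_coe_finset]
    congr 1
    ext x
    rw [Finset.mem_coe, hB, Finset.mem_filter]
    rfl
  rw [hBn] at hb
  have h1 : boundary K F α ⊆ ((S ×ˢ B).image fun p => p.1 • p.2 : Finset (G ⧸ K)) := by
    rintro y ⟨⟨s, hs, hsF⟩, s', hs', hs'F⟩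
    rw [Finset.mem_coe, Finset.mem_image]
    refine ⟨(s, s⁻¹ • y), Finset.mem_product.2 ⟨hs, Finset.mem_filter.2 ⟨hsF, s'⁻¹ * s,
      Finset.mem_image.2 ⟨(s', s), Finset.mem_product.2 ⟨hs', hs⟩, rfl⟩, ?_⟩⟩,
      smul_inv_smul s y⟩
    rw [mul_smul, smul_inv_smul]
    exact hs'F
  have h2 : (boundary K F α).ncard ≤ S.card * B.card := by
    refine (Set.ncard_le_ncard h1 (Finset.finite_toSet _)).trans ?_
    rw [Set.ncard_coe_finset]
    refine Finset.card_image_le.trans ?_
    rw [Finset.card_product]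
  have h3 : ((boundary K F α).ncard : ℝ) ≤ S.card * B.card := by exact_mod_cast h2
  have hFc : (0 : ℝ) ≤ F.card := by positivity
  calc ((boundary K F α).ncard : ℝ) ≤ S.card * B.card := h3
    _ ≤ S.card * (ε' * F.card) := by gcongr
    _ = (S.card * ε') * F.card := by ring
    _ ≤ ε * F.card := by
        apply mul_le_mul_of_nonneg_right _ hFc
        rw [hε', mul_div_assoc', div_le_iff₀ (by positivity)]
        nlinarith

end

/-- **Kernels and cosets of subgroups.** Let `G` be any group and `α` in its complex group algebra.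

(1) For every subgroup `K`, every finite set `F` of cosets `gK` and every choice `r` of
representatives, the dimension over `K` of the space of all kernel elements supported on the cosets
in `F` is between `|F| * kerDim α - |boundary|` and `|F| * kerDim α`.

(2) If the boundary has less than `|F| * kerDim α` elements, there is a nonzero `f` in `ℓ²(G)` with
`α * f = 0` which is zero outside the cosets in `F`.

(3) If `K` is co-amenable then for each `ε > 0` there is a finite nonempty `F` such that the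
dimension in (1) divided by `|F|` is in the interval `[kerDim α - ε, kerDim α]`.

(4) If `K` is co-amenable and `α * f = 0` for some nonzero `f` in `ℓ²(G)`, then this is true for
some nonzero `f` in `ℓ²(G)` supported on finitely many cosets `gK`. -/
theorem result {G : Type u} [Group G] (K : Subgroup G) (α : G →₀ ℂ) :
    (∀ (F : Finset (G ⧸ K)) (r : G ⧸ K → G), (∀ x, (r x : G ⧸ K) = x) →
      F.card * kerDim α - (boundary K F α).ncard ≤ dimOn K F r α ∧
        dimOn K F r α ≤ F.card * kerDim α) ∧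
    (∀ F : Finset (G ⧸ K), ((boundary K F α).ncard : ℝ) < F.card * kerDim α →
      ∃ f ∈ kernelOn K F α, f ≠ 0) ∧
    (CoAmenable K → ∀ r : G ⧸ K → G, (∀ x, (r x : G ⧸ K) = x) → ∀ ε : ℝ, 0 < ε →
      ∃ F : Finset (G ⧸ K), F.Nonempty ∧ kerDim α - ε ≤ dimOn K F r α / F.card ∧
        dimOn K F r α / F.card ≤ kerDim α) ∧
    (CoAmenable K → ¬ Regular α → ∃ F : Finset (G ⧸ K), ∃ f ∈ kernelOn K F α, f ≠ 0) := by
  refine ⟨fun F r hr => two_sided K F r hr α, fun F h => exists_of_small K F α h,
    fun hK r hr ε hε => ?_, fun hK hα => ?_⟩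
  · obtain ⟨F, hF, hb⟩ := small_boundary K hK α ε hε
    have hc : (0 : ℝ) < F.card := by exact_mod_cast hF.card_pos
    obtain ⟨h1, h2⟩ := two_sided K F r hr α
    refine ⟨F, hF, ?_, ?_⟩
    · rw [le_div_iff₀ hc]
      nlinarith
    · rw [div_le_iff₀ hc]
      linarith
  · have hpos := kerDim_pos α hα
    obtain ⟨F, hF, hb⟩ := small_boundary K hK α (kerDim α / 2) (by linarith)
    have hc : (0 : ℝ) < F.card := by exact_mod_cast hF.card_pos
    exact ⟨F, exists_of_small K F α (by nlinarith)⟩

end Pool.Agent.Results.MP_0f25e6_al.CoamenableSubgroups
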