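import Pool.Agent.Q91.TE.Fiber
import Pool.Agent.H61R3.KD4

set_option autoImplicit false
set_option linter.unusedSectionVars false

universe u v

namespace Pool.Agent.Results.MP_0f25e6_al.FibreRestriction

open Pool.Agent.Q91.TE

/-- `α * f` is nonzero for every nonzero square-summable `f`, where
`(α * f)(g) = ∑ α(k) f(k⁻¹ g)`. -/
def Regular {G : Type u} [Group G] (α : G →₀ ℂ) : Prop :=
  ∀ f : G → ℂ, Memℓp f 2 → f ≠ 0 → ∃ g : G, ∑ k ∈ α.support, α k * f (k⁻¹ * g) ≠ 0

/-- All square-summable `f` with `α * f = 0`. -/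
def kernel {G : Type u} [Group G] (α : G →₀ ℂ) : Set (lp (fun _ : G => ℂ) 2) :=
  {f | ∀ g : G, ∑ k ∈ α.support, α k * f (k⁻¹ * g) = 0}

open Classical in
/-- The von Neumann dimension of the kernel of left convolution by `α`: one minus the square of the
distance from the basis vector at the identity of `G` to the kernel (this is the squared length of
the projection of that vector to the kernel). -/
noncomputable def kerDim {G : Type u} [Group G] (α : G →₀ ℂ) : ℝ :=
  1 - Metric.infDist (lp.single 2 (1 : G) (1 : ℂ)) (kernel α) ^ 2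

/-- A group is locally indicable if every nontrivial finitely generated subgroup has a nontrivial
homomorphism to the group of integers. -/
def LocallyIndicable (H : Type v) [Group H] : Prop :=
  ∀ K : Subgroup H, K.FG → K ≠ ⊥ → ∃ φ : K →* Multiplicative ℤ, ∃ k, φ k ≠ 1

/-- `t` is in `g K` and `q (g⁻¹ t) = γ`. -/
def InFibre {G : Type u} [Group G] {K : Subgroup G} {Q : Type v} [Group Q] (q : K →* Q) (g : G)
    (γ : Q) (t : G) : Prop := ∃ h : g⁻¹ * t ∈ K, q ⟨g⁻¹ * t, h⟩ = γ

section
variable {G : Type u} [Group G]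

theorem kerDim_eq (α : G →₀ ℂ) : kerDim α = kD α := rfl

theorem regular_of_kD (α : G →₀ ℂ) (h : kD α ≤ 0) : Regular α := by
  apply (W649.ZL.regular_iff α).2
  apply W649.ZL.injective_of_vd_eq_zero _ (W649.ZL.cop_eqv _)
  rw [← kD_eq]
  exact h

theorem kD_of_regular (α : G →₀ ℂ) (h : Regular α) : kD α = 0 := by
  rw [kD_eq]
  exact W649.ZL.vd_ker_of_injective _ ((W649.ZL.regular_iff α).1 h)

/-- cyclic groups generated by elements of infinite order are locally indicable -/
theorem li_zpowers (x : G) (hx : ∀ n : ℕ, 0 < n → x ^ n ≠ 1) :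
    W649.ZL.LI (Subgroup.zpowers x) := by
  have hinj : Function.Injective (fun n : ℤ => x ^ n) := by
    have : ¬ IsOfFinOrder x := by
      rw [isOfFinOrder_iff_pow_eq_one]
      rintro ⟨n, hn, h⟩
      exact hx n hn h
    exact injective_zpow_iff_not_isOfFinOrder.2 this
  let e : Multiplicative ℤ →* Subgroup.zpowers x :=
    { toFun := fun n => ⟨x ^ (Multiplicative.toAdd n), ⟨_, rfl⟩⟩
      map_one' := by apply Subtype.ext; simp
      map_mul' := by intro a b; apply Subtype.ext; simp [zpow_add] }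
  have hbij : Function.Bijective e := by
    constructor
    · intro a b hab
      exact hinj (congrArg Subtype.val hab)
    · rintro ⟨_, n, rfl⟩
      exact ⟨Multiplicative.ofAdd n, rfl⟩
  let E := MulEquiv.ofBijective e hbij
  intro K _ hne
  refine ⟨E.symm.toMonoidHom.comp K.subtype, ?_⟩
  obtain ⟨k, hk⟩ := (K.ne_bot_iff_exists_ne_one).1 hne
  refine ⟨k, fun h => hk ?_⟩
  have h1 : E.symm (k : Subgroup.zpowers x) = 1 := h
  rw [MulEquiv.map_eq_one_iff] at h1
  exact Subtype.ext h1

theorem regular_le_two (htf : ∀ g : G, ∀ n : ℕ, 0 < n → g ^ n = 1 → g = 1) (α : G →₀ ℂ)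
    (h0 : α ≠ 0) (h2 : α.support.card ≤ 2) : Regular α := by
  classical
  apply (W649.ZL.regular_iff α).2
  obtain ⟨x, hx⟩ := Finsupp.support_nonempty_iff.2 h0
  by_cases h : ∃ y ∈ α.support, y ≠ x
  · obtain ⟨y, hy, hyx⟩ := h
    have hne : x⁻¹ * y ≠ 1 := by
      intro h1
      exact hyx (inv_mul_eq_one.1 h1).symm
    refine W649.ZL.LI_coset_injective x (Subgroup.zpowers (x⁻¹ * y))
      (li_zpowers _ fun n hn h1 => hne (htf _ n hn h1)) α ?_ h0
    intro z hz
    have hsub : ({x, y} : Finset G) ⊆ α.support := by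
      classical
      intro w hw
      rw [Finset.mem_insert, Finset.mem_singleton] at hw
      rcases hw with rfl | rfl <;> assumption
    have heq : ({x, y} : Finset G) = α.support := by
      classical
      apply Finset.eq_of_subset_of_card_le hsub
      rw [Finset.card_pair hyx.symm]
      exact h2
    rw [← heq] at hz
    classical
    rw [Finset.mem_insert, Finset.mem_singleton] at hz
    rcases hz with rfl | rfl
    · rw [inv_mul_cancel]; exact one_mem _
    · exact Subgroup.mem_zpowers _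
  · push Not at h
    have hbot : W649.ZL.LI (⊥ : Subgroup G) := by
      intro K _ hne
      exact absurd (Subsingleton.elim K ⊥) hne
    refine W649.ZL.LI_coset_injective x ⊥ hbot α ?_ h0
    intro z hz
    rw [h z hz, inv_mul_cancel]
    exact one_mem _

theorem kD_eq_kd (α : G →₀ ℂ) (V : Submodule ℂ (H61R3NG.E2 G)) [V.HasOrthogonalProjection]
    (hk : W649.ZL.kern α = (V : Set (H61R3NG.E2 G))) : kD α = H61R3NG.kd V := by
  classical
  unfold kD
  rw [hk]
  set d : H61R3NG.E2 G := H61R3NG.dl 1 with hd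
  have hd2 : (lp.single 2 (1 : G) (1 : ℂ) : H61R3NG.E2 G) = d := by
    rw [hd]
    rfl
  rw [hd2]
  have h1 : Metric.infDist d (V : Set (H61R3NG.E2 G)) = ‖d - V.starProjection d‖ := by
    rw [Submodule.starProjection_minimal, Metric.infDist_eq_iInf]
    simp only [dist_eq_norm]
    rfl
  have h2 : ‖d‖ ^ 2 = ‖V.starProjection d‖ ^ 2 + ‖Vᗮ.starProjection d‖ ^ 2 :=
    Submodule.norm_sq_eq_add_norm_sq_starProjection d V
  have h3 : Vᗮ.starProjection d = d - V.starProjection d := by
    rw [← Submodule.starProjection_orthogonal_val]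
  have h4 : ‖d‖ = 1 := by
    rw [← hd2]
    simp
  rw [h3, h4] at h2
  rw [h1]
  unfold H61R3NG.kd H61R3NG.xi
  rw [← hd]
  linarith

/-- three terms -/
theorem three (htf : ∀ g : G, ∀ n : ℕ, 0 < n → g ^ n = 1 → g = 1) (α : G →₀ ℂ)
    (h3 : α.support.card = 3) : kD α ≤ 1 / 3 := by
  classical
  obtain ⟨x, y, z, hxy, hxz, hyz, hs⟩ := Finset.card_eq_three.1 h3
  have hpos : ∀ t ∈ α.support, 0 < ‖α t‖ := fun t ht =>
    norm_pos_iff.2 (Finsupp.mem_support_iff.1 ht)
  have key : ∀ a b c : G, a ≠ b → a ≠ c → b ≠ c → α.support = {a, b, c} → ‖α c‖ ≤ ‖α a‖ →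
      ‖α c‖ ≤ ‖α b‖ → kD α ≤ 1 / 3 := by
    intro a b c hab hac hbc hsup hca hcb
    have ha : a ∈ α.support := by rw [hsup]; simp
    have hb : b ∈ α.support := by rw [hsup]; simp
    have hfin : ¬ IsOfFinOrder (a⁻¹ * b) := by
      rw [isOfFinOrder_iff_pow_eq_one]
      rintro ⟨n, hn, h⟩
      exact hab (inv_mul_eq_one.1 (htf _ n hn h))
    set A : MonoidAlgebra ℂ G := MonoidAlgebra.ofCoeff α with hA
    have h1 := H61R3NG.main A a b hfin (Finsupp.mem_support_iff.1 ha)
      (Finsupp.mem_support_iff.1 hb) ‖α c‖ (by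
        change _ = ∑ z ∈ α.support, ‖α z‖ - ‖α a‖ - ‖α b‖
        rw [hsup, Finset.sum_insert (by simp [hab, hac]), Finset.sum_insert (by simp [hbc]),
          Finset.sum_singleton]
        ring)
    have h2 : kD α = H61R3NG.kd
        (LinearMap.ker (H61R3NG.Top G A : H61R3NG.E2 G →ₗ[ℂ] H61R3NG.E2 G)) := by
      apply kD_eq_kd
      ext f
      simp only [W649.ZL.kern, SetLike.mem_coe, LinearMap.mem_ker]
      constructor
      · intro h
        apply lp.ext
        funext g
        have := H61R3NG.Top_apply_apply A f g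
        rw [show ((H61R3NG.Top G A : H61R3NG.E2 G →ₗ[ℂ] H61R3NG.E2 G) f)
          = H61R3NG.Top G A f from rfl, this]
        exact h g
      · intro h g
        have h' : H61R3NG.Top G A f = 0 := h
        have := H61R3NG.Top_apply_apply A f g
        rw [h'] at this
        exact this.symm
    rw [h2]
    refine h1.trans ?_
    change Real.arccos ((‖α a‖ ^ 2 + ‖α b‖ ^ 2 - ‖α c‖ ^ 2) / (2 * (‖α a‖ * ‖α b‖))) / Real.pi
      ≤ 1 / 3
    have hpa := hpos a ha
    have hpb := hpos b hb
    have hc0 := norm_nonneg (α c)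
    have h5 : (1 : ℝ) / 2 ≤ (‖α a‖ ^ 2 + ‖α b‖ ^ 2 - ‖α c‖ ^ 2) / (2 * (‖α a‖ * ‖α b‖)) := by
      rw [le_div_iff₀ (by positivity)]
      rcases le_total (‖α a‖) (‖α b‖) with h | h
      · nlinarith
      · nlinarith
    have h6 : Real.arccos ((‖α a‖ ^ 2 + ‖α b‖ ^ 2 - ‖α c‖ ^ 2) / (2 * (‖α a‖ * ‖α b‖)))
        ≤ Real.pi / 3 := by
      have h7 : Real.arccos (1 / 2) = Real.pi / 3 := by
        rw [← Real.cos_pi_div_three]
        apply Real.arccos_cos
        · positivity
        · have := Real.pi_pos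
          linarith
      rw [← h7]
      exact Real.antitone_arccos h5
    rw [div_le_iff₀ Real.pi_pos]
    linarith
  rcases le_total (‖α x‖) (‖α y‖) with h1 | h1
  · rcases le_total (‖α x‖) (‖α z‖) with h2 | h2
    · exact key y z x hyz hxy.symm hxz.symm (by rw [hs]; ext w; simp; tauto) h1 h2
    · exact key x y z hxy hxz hyz hs h2 (h2.trans h1)
  · rcases le_total (‖α y‖) (‖α z‖) with h2 | h2
    · exact key x z y hxz hxy hyz.symm (by rw [hs]; ext w; simp; tauto) h1 h2
    · exact key x y z hxy hxz hyz hs (h2.trans h1) h2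

end

open Classical in
/-- **Restriction to a fibre.**

1. Let `G` be any group, `K` a subgroup, `q` a homomorphism from `K` to a locally indicable group
   `Q` and `α ≠ 0` an element of the complex group algebra of `G` with support in a coset `g K`.
   Then there is `γ` in `Q` such that the part `β` of `α` on the fibre `{t | q (g⁻¹ t) = γ}` is not
   zero and the kernel of `α` on `ℓ²(G)` has at most the von Neumann dimension of the kernel of
   `β`; and if `q (g⁻¹ t)` is not constant on the support of `α`, the support of `β` has at most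
   half as many elements. In particular `α` is regular if its nonzero parts on the fibres are.
2. Let `G` be torsion-free and `α ≠ 0` such that the subgroup generated by the elements `s⁻¹ t`,
   with `s` and `t` in the support of `α`, has a nontrivial homomorphism to the integers. If `α` has
   at most five terms then `α * f ≠ 0` for all nonzero `f` in `ℓ²(G)`; if `α` has at most seven
   terms, the kernel of `α` on `ℓ²(G)` has von Neumann dimension at most `1 / 3`. -/
theorem result {G : Type u} [Group G] :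
    (∀ (K : Subgroup G) (Q : Type v) [Group Q] (q : K →* Q), LocallyIndicable Q →
      ∀ (g : G) (α : G →₀ ℂ), α ≠ 0 → (∀ t ∈ α.support, g⁻¹ * t ∈ K) →
        (∃ γ : Q, α.filter (InFibre q g γ) ≠ 0 ∧
          kerDim α ≤ kerDim (α.filter (InFibre q g γ)) ∧
          ((∀ γ' : Q, ∃ t ∈ α.support, ¬ InFibre q g γ' t) →
            2 * (α.filter (InFibre q g γ)).support.card ≤ α.support.card)) ∧
        ((∀ γ : Q, α.filter (InFibre q g γ) ≠ 0 → Regular (α.filter (InFibre q g γ))) →
          Regular α)) ∧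
    ((∀ g : G, ∀ n : ℕ, 0 < n → g ^ n = 1 → g = 1) → ∀ α : G →₀ ℂ, α ≠ 0 →
      (∃ φ : Subgroup.closure {x : G | ∃ s ∈ α.support, ∃ t ∈ α.support, x = s⁻¹ * t} →*
        Multiplicative ℤ, ∃ k, φ k ≠ 1) →
      (α.support.card ≤ 5 → Regular α) ∧ (α.support.card ≤ 7 → kerDim α ≤ 1 / 3)) := by
  have part1 : ∀ (K : Subgroup G) (Q : Type v) [Group Q] (q : K →* Q), LocallyIndicable Q →
      ∀ (g : G) (α : G →₀ ℂ), α ≠ 0 → (∀ t ∈ α.support, g⁻¹ * t ∈ K) →
        ∃ γ : Q, α.filter (InFibre q g γ) ≠ 0 ∧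
          kerDim α ≤ kerDim (α.filter (InFibre q g γ)) ∧
          ((∀ γ' : Q, ∃ t ∈ α.support, ¬ InFibre q g γ' t) →
            2 * (α.filter (InFibre q g γ)).support.card ≤ α.support.card) := by
    intro K Q _ q hQ g α hα hK
    obtain ⟨γ, h1, h2, h3⟩ := fiber' K q hQ g α hα hK
    refine ⟨γ, h1, h2, fun h => h3 ?_⟩
    obtain ⟨s0, hs0⟩ := Finsupp.support_nonempty_iff.2 hα
    obtain ⟨t, ht, hne⟩ := h (q ⟨g⁻¹ * s0, hK s0 hs0⟩)
    exact ⟨s0, hs0, t, ht, fun heq => hne ⟨hK t ht, heq.symm⟩⟩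
  refine ⟨?_, ?_⟩
  · intro K Q _ q hQ g α hα hK
    refine ⟨part1 K Q q hQ g α hα hK, fun hreg => ?_⟩
    obtain ⟨γ, h1, h2, _⟩ := part1 K Q q hQ g α hα hK
    apply regular_of_kD
    refine h2.trans ?_
    rw [kerDim_eq, kD_of_regular _ (hreg γ h1)]
  · intro htf α hα hφ
    set D := Subgroup.closure {x : G | ∃ s ∈ α.support, ∃ t ∈ α.support, x = s⁻¹ * t} with hD
    obtain ⟨φ, k, hk⟩ := hφ
    obtain ⟨s0, hs0⟩ := Finsupp.support_nonempty_iff.2 hα
    have hmem : ∀ s ∈ α.support, ∀ t ∈ α.support, s⁻¹ * t ∈ D := fun s hs t ht =>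
      Subgroup.subset_closure ⟨s, hs, t, ht, rfl⟩
    have hLI : ∀ L : Subgroup (Multiplicative ℤ), L.FG → L ≠ ⊥ →
        ∃ φ : L →* Multiplicative ℤ, ∃ k, φ k ≠ 1 := by
      intro L _ hne
      refine ⟨L.subtype, ?_⟩
      obtain ⟨k, hk⟩ := (L.ne_bot_iff_exists_ne_one).1 hne
      exact ⟨k, fun h => hk (Subtype.ext h)⟩
    have hnc : ∃ s, ∃ hs : s ∈ α.support, ∃ t, ∃ ht : t ∈ α.support,
        φ ⟨s0⁻¹ * s, hmem s0 hs0 s hs⟩ ≠ φ ⟨s0⁻¹ * t, hmem s0 hs0 t ht⟩ := by
      by_contra hcon
      push Not at hcon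
      apply hk
      have h1 : ∀ x (hx : x ∈ D), φ ⟨x, hx⟩ = 1 := by
        intro x hx
        refine Subgroup.closure_induction (p := fun x hx => φ ⟨x, hx⟩ = 1) ?_ ?_ ?_ ?_ hx
        · rintro _ ⟨s, hs, t, ht, rfl⟩
          have h2 : (⟨s⁻¹ * t, hmem s hs t ht⟩ : D)
              = ⟨s0⁻¹ * s, hmem s0 hs0 s hs⟩⁻¹ * ⟨s0⁻¹ * t, hmem s0 hs0 t ht⟩ := by
            apply Subtype.ext
            change s⁻¹ * t = (s0⁻¹ * s)⁻¹ * (s0⁻¹ * t)
            group
          have h3 := hcon s hs t ht
          change φ ⟨s⁻¹ * t, hmem s hs t ht⟩ = 1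
          rw [h2, map_mul, map_inv, h3, inv_mul_cancel]
        · exact map_one φ
        · intro x y hx hy h1 h2
          have : (⟨x * y, mul_mem hx hy⟩ : D) = ⟨x, hx⟩ * ⟨y, hy⟩ := rfl
          rw [this, map_mul, h1, h2, one_mul]
        · intro x hx h1
          have : (⟨x⁻¹, inv_mem hx⟩ : D) = ⟨x, hx⟩⁻¹ := rfl
          rw [this, map_inv, h1, inv_one]
      exact h1 k.1 k.2
    obtain ⟨γ, h1, h2, h3⟩ := fiber' D φ hLI s0 α hα (fun t ht => hmem s0 hs0 t ht)
    have h4 := h3 hnc
    refine ⟨fun h5 => ?_, fun h7 => ?_⟩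
    · apply regular_of_kD
      refine h2.trans ?_
      rw [kD_of_regular _ (regular_le_two htf _ h1 (by omega))]
    · refine h2.trans ?_
      by_cases hc : (α.filter (InFib φ s0 γ)).support.card ≤ 2
      · rw [kD_of_regular _ (regular_le_two htf _ h1 hc)]
        norm_num
      · exact three htf _ (by omega)

end Pool.Agent.Results.MP_0f25e6_al.FibreRestriction
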