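import Pool.Agent.Q91.TE.Tree
import Pool.Agent.Q91.TE.Proj

set_option autoImplicit false

universe u

namespace Pool.Agent.Results.MP_0f25e6_al.ShortRelations

open Pool.Agent.Q91.TE

/-- All square-summable `f` with `α * f = 0`. -/
def kernel {G : Type u} [Group G] (α : G →₀ ℂ) : Set (lp (fun _ : G => ℂ) 2) :=
  {f | ∀ g : G, ∑ k ∈ α.support, α k * f (k⁻¹ * g) = 0}

open Classical in
/-- The von Neumann dimension of the kernel of left convolution by `α`: one minus the square of the
distance from the basis vector at the identity of `G` to the kernel (this is the squared length of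
the projection of that vector to the kernel). -/
noncomputable def kerDim {G : Type u} [Group G] (α : G →₀ ℂ) : ℝ :=
  1 - Metric.infDist (lp.single 2 (1 : G) (1 : ℂ)) (kernel α) ^ 2

/-- The list `[(t₁, u₁), …, (t_j, u_j)]` consists of pairs of different elements of `S`, and
`u_i ≠ t_(i+1)` for all `i < j`. -/
def Reduced {G : Type u} (S : Finset G) (w : List (G × G)) : Prop :=
  (∀ p ∈ w, p.1 ∈ S ∧ p.2 ∈ S ∧ p.1 ≠ p.2) ∧ w.IsChain (fun p q => p.2 ≠ q.1)

/-- The value `u_j⁻¹ t_j ⋯ u₂⁻¹ t₂ u₁⁻¹ t₁` of the list `[(t₁, u₁), …, (t_j, u_j)]`. -/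
def value {G : Type u} [Group G] : List (G × G) → G
  | [] => 1
  | p :: w => value w * (p.2⁻¹ * p.1)

section
variable {G : Type u} [Group G]

/-- forget the proofs of membership -/
def vl {S : Finset G} (w : List (S × S)) : List (G × G) := w.map fun p => ((p.1 : G), (p.2 : G))

theorem vl_inj {S : Finset G} : Function.Injective (vl (S := S)) :=
  List.map_injective_iff.2 fun p q h => Prod.ext (Subtype.ext (congrArg Prod.fst h))
    (Subtype.ext (congrArg Prod.snd h))

theorem red {S : Finset G} [DecidableEq S] {j : ℕ} {s : Option S} {w : List (S × S)}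
    (h : w ∈ Wd (fun _ : S => ()) (fun _ : S => ()) j s ()) :
    Reduced S (vl w) ∧ ∀ p ∈ w.head?, s ≠ some p.1 := by
  induction j generalizing s w with
  | zero =>
    rw [Wd, Finset.mem_singleton] at h
    subst h
    refine ⟨⟨?_, ?_⟩, ?_⟩ <;> simp [vl]
  | succ j ih =>
    simp only [Wd, Finset.mem_biUnion, Finset.mem_image] at h
    obtain ⟨t, ht, v, hv, w', hw', rfl⟩ := h
    obtain ⟨⟨h1, h2⟩, h3⟩ := ih hw'
    have hvt : v ≠ t := (Finset.mem_filter.1 hv).2.2
    refine ⟨⟨?_, ?_⟩, ?_⟩
    · intro p hp
      rw [vl, List.map_cons, List.mem_cons] at hp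
      rcases hp with rfl | hp
      · exact ⟨t.2, v.2, fun h => hvt (Subtype.ext h.symm)⟩
      · exact h1 p hp
    · rw [vl, List.map_cons, List.isChain_cons]
      refine ⟨?_, h2⟩
      intro q hq
      rw [List.head?_map, Option.mem_map] at hq
      obtain ⟨q', hq', rfl⟩ := hq
      intro h
      exact h3 q' hq' (congrArg some (Subtype.ext h))
    · intro p hp
      rw [List.head?_cons, Option.mem_def, Option.some_inj] at hp
      rw [← hp]
      exact (Finset.mem_filter.1 ht).2.2

theorem nd_eq {S : Finset G} (w : List (S × S)) (g : G) :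
    nd (fun _ : S => ()) (fun t u (x : G) => (u : G)⁻¹ * t * x) w ((), g)
      = ((), value (vl w) * g) := by
  induction w generalizing g with
  | nil => simp [nd, vl, value]
  | cons p w ih =>
    rw [nd, ih]
    simp only [vl, List.map_cons, value, mul_assoc]

theorem kernel_eq (α : G →₀ ℂ) : kernel α = (VS (fun _ : G => α.support) (fun _ k => α k)
    (fun g k => k⁻¹ * g) : Set (lp (fun _ : G => ℂ) 2)) := rfl

/-- **Short relations.** Let `S` be a finite subset of a group `G` with `k ≥ 2` elements, and
suppose that the elements `u_j⁻¹ t_j ⋯ u₁⁻¹ t₁` of `G` with `j ≤ n`, `t_i ≠ u_i` in `S` and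
`u_i ≠ t_(i+1)` are pairwise different. Then for every element `α` of the complex group algebra
with support `S` the kernel of `α` on `ℓ²(G)` has von Neumann dimension at most `1 / (n + 1)`. If
all nonzero coefficients of `α` have the same absolute value, it is at most
`1 / (1 + n k / (k - 1))`. -/
theorem result (S : Finset G) (hS : 2 ≤ S.card) (n : ℕ)
    (hn : ∀ v w : List (G × G), Reduced S v → Reduced S w → v.length ≤ n → w.length ≤ n →
      value v = value w → v = w) (α : G →₀ ℂ) (hα : α.support = S) :
    kerDim α ≤ 1 / (n + 1) ∧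
    ((∀ s ∈ S, ∀ t ∈ S, ‖α s‖ = ‖α t‖) →
      kerDim α ≤ 1 / (1 + n * (S.card / (S.card - 1)))) := by
  classical
  let st : S → S → G → G := fun t u x => (u : G)⁻¹ * t * x
  have hnb : ∀ t : S, nb (fun _ : S => ()) t = Finset.univ.erase t := by
    intro t
    ext u
    simp [nb]
  have hnx : ∀ s : S, nx (fun _ : S => ()) (some s) () = Finset.univ.erase s := by
    intro s
    ext u
    simp [nx, eq_comm]
  have hnx0 : nx (fun _ : S => ()) none () = Finset.univ := by
    ext u
    simp [nx]
  have ha0 : ∀ t : S, α t ≠ 0 := fun t => by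
    rw [← Finsupp.mem_support_iff, hα]; exact t.2
  have hE : ∀ f ∈ kernel α, Eqn (fun _ : S => ()) (fun _ : S => ()) st
      (fun x : Unit × G => f x.2) (fun t => α t) := by
    intro f hf t g
    have h1 := hf (t * g)
    rw [hα, ← Finset.sum_coe_sort S (fun k => α k * f (k⁻¹ * ((t : G) * g))),
      ← Finset.add_sum_erase _ _ (Finset.mem_univ t), inv_mul_cancel_left] at h1
    rw [hnb]
    change α t * f g = _
    rw [eq_neg_iff_add_eq_zero, ← h1]
    congr 1
    refine Finset.sum_congr rfl fun u _ => ?_
    change α u * f ((u : G)⁻¹ * t * g) = _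
    rw [mul_assoc]
  have hbig : ∀ f ∈ kernel α, ∑ j ∈ Finset.range (n + 1),
      Lv (fun _ : S => ()) (fun _ : S => ()) st (fun x : Unit × G => f x.2) none () j 1
        ≤ ‖f‖ ^ 2 := by
    intro f _
    let e : Unit × G ≃ G := Equiv.punitProd G
    have hsum : Summable fun x : Unit × G => ‖f x.2‖ ^ 2 := by
      have := (summable_sq_lp f)
      exact (e.summable_iff (f := fun x => ‖f x‖ ^ 2)).2 this
    have h1 := total (row := fun _ : S => ()) (col := fun _ : S => ()) (st := st)
      (F := fun x : Unit × G => f x.2) n () 1 hsum (by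
        intro j hj k hk w hw v hv h
        rw [nd_eq, nd_eq, mul_one, mul_one] at h
        have hw' := red hw
        have hv' := red hv
        apply vl_inj
        refine hn _ _ hw'.1 hv'.1 ?_ ?_ (congrArg Prod.snd h)
        · rw [vl, List.length_map, length_of_mem hw]; exact hj
        · rw [vl, List.length_map, length_of_mem hv]; exact hk)
    refine h1.trans (le_of_eq ?_)
    rw [norm_sq_lp]
    exact e.tsum_eq (fun x => ‖f x‖ ^ 2)
  have hcard : Fintype.card S = S.card := Fintype.card_coe S
  have key : ∀ E : ℝ, 0 < E → (∀ f ∈ kernel α, E * ‖f 1‖ ^ 2 ≤ ‖f‖ ^ 2) → kerDim α ≤ 1 / E := by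
    intro E hE0 h
    have := bound (VS (fun _ : G => α.support) (fun _ k => α k) (fun g k => k⁻¹ * g))
      (isClosed_VS _ _ _) 1 E hE0 h
    exact this
  refine ⟨key _ (by positivity) ?_, fun heq => key _ ?_ ?_⟩
  · intro f hf
    refine le_trans ?_ (hbig f hf)
    have h2 : ((n : ℝ) + 1) * ‖f 1‖ ^ 2 = ∑ _j ∈ Finset.range (n + 1), ‖f 1‖ ^ 2 := by
      rw [Finset.sum_const, Finset.card_range, nsmul_eq_mul]; push_cast; ring
    rw [h2]
    refine Finset.sum_le_sum fun j _ => ?_
    exact one_le st (fun x : Unit × G => f x.2) (fun t => α t) (hE f hf) ha0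
      (by rw [hcard]; exact hS) (fun w hw m hm hd => exists_q w hw m hm hd) j 1
  · have h2 : (2 : ℝ) ≤ S.card := by exact_mod_cast hS
    have h3 : (0 : ℝ) < S.card - 1 := by linarith
    positivity
  · intro f hf
    refine le_trans ?_ (hbig f hf)
    obtain ⟨s0, hs0⟩ : S.Nonempty := Finset.card_pos.1 (by omega)
    have hω : 0 < ‖α s0‖ := norm_pos_iff.2 (ha0 ⟨s0, hs0⟩)
    have hk : (0 : ℝ) < S.card - 1 := by
      have h2 : (2 : ℝ) ≤ S.card := by exact_mod_cast hS
      linarith
    rw [Finset.sum_range_succ', Lv_zero]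
    have h4 : ∀ j ∈ Finset.range n, (S.card : ℝ) / (S.card - 1) * ‖f 1‖ ^ 2
        ≤ Lv (fun _ : S => ()) (fun _ : S => ()) st (fun x : Unit × G => f x.2) none () (j + 1)
          1 := by
      intro j _
      have h5 := unif_root (hE f hf) ‖α s0‖ hω (fun t => heq _ t.2 _ hs0) S.card S.card
        (fun s => by
          rw [hnx, Finset.card_erase_of_mem (Finset.mem_univ _), Finset.card_univ, hcard]; omega)
        (fun t => by
          rw [hnb, Finset.card_erase_of_mem (Finset.mem_univ _), Finset.card_univ, hcard]; omega)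
        hS () (by rw [hnx0, Finset.card_univ, hcard]) j 1
      rw [div_self hk.ne', one_pow, mul_one] at h5
      exact h5
    have h6 := Finset.sum_le_sum h4
    rw [Finset.sum_const, Finset.card_range, nsmul_eq_mul] at h6
    linarith

end

end Pool.Agent.Results.MP_0f25e6_al.ShortRelations
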