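import Pool.Agent.Q91.TE.Peak
import Pool.Agent.W649.ZL.Lead

set_option autoImplicit false
set_option linter.unusedSectionVars false

universe u

namespace Pool.Agent.Results.MP_0f25e6_al.UniqueProductActions

open Pool.Agent.Q91.TE

/-- `α * f` is nonzero for every nonzero square-summable `f`, where
`(α * f)(g) = ∑ α(k) f(k⁻¹ g)`. -/
def Regular {G : Type u} [Group G] (α : G →₀ ℂ) : Prop :=
  ∀ f : G → ℂ, Memℓp f 2 → f ≠ 0 → ∃ g : G, ∑ k ∈ α.support, α k * f (k⁻¹ * g) ≠ 0

/-- All square-summable `f` with `α * f = 0`. -/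
def kernel {G : Type u} [Group G] (α : G →₀ ℂ) : Set (lp (fun _ : G => ℂ) 2) :=
  {f | ∀ g : G, ∑ k ∈ α.support, α k * f (k⁻¹ * g) = 0}

open Classical in
/-- The von Neumann dimension of the kernel of left convolution by `α`: one minus the square of the
distance from the basis vector at the identity of `G` to the kernel (this is the squared length of
the projection of that vector to the kernel). -/
noncomputable def kerDim {G : Type u} [Group G] (α : G →₀ ℂ) : ℝ :=
  1 - Metric.infDist (lp.single 2 (1 : G) (1 : ℂ)) (kernel α) ^ 2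

/-- The coset `s x`, for `s` in `G` and a coset `x = gK`. -/
def move {G : Type u} [Group G] {K : Subgroup G} (s : G) (x : G ⧸ K) : G ⧸ K := s • x

/-- The subgroup `K` is co-amenable: the set `G / K` of cosets `gK` has nonempty finite subsets that
are almost invariant under any given finite subset of `G` (Følner's condition). -/
def CoAmenable {G : Type u} [Group G] (K : Subgroup G) : Prop :=
  ∀ (S : Finset G) (ε : ℝ), 0 < ε → ∃ F : Finset (G ⧸ K), F.Nonempty ∧
    (({x | x ∈ F ∧ ∃ s ∈ S, move s x ∉ F} : Set (G ⧸ K)).ncard : ℝ) ≤ ε * F.card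

open Classical in
/-- The part of `α` on the set of the `s` in `G` which map the coset `x` to the coset `y`. -/
noncomputable def part {G : Type u} [Group G] (K : Subgroup G) (α : G →₀ ℂ) (x y : G ⧸ K) :
    G →₀ ℂ :=
  α.filter fun s => move s x = y

/-- Every nonempty finite set `F` of cosets contains a coset `x` such that, for some `t` in `S`, the
coset `t x` is not of the form `s z` with `s` in `S` and `z` in `F` different from `x`. -/
def Peaks {G : Type u} [Group G] (K : Subgroup G) (S : Finset G) : Prop :=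
  ∀ F : Finset (G ⧸ K), F.Nonempty → ∃ x ∈ F, ∃ t ∈ S, ∀ z ∈ F, ∀ s ∈ S, move s z = move t x → z = x

/-- The action of `G` on the cosets `gK` has unique products: `Peaks` for all nonempty finite `S`. -/
def UniqueProducts {G : Type u} [Group G] (K : Subgroup G) : Prop :=
  ∀ S : Finset G, S.Nonempty → Peaks K S

/-- There is a total order on the cosets `gK` which is invariant under the action of `G`. -/
def Ordered {G : Type u} [Group G] (K : Subgroup G) : Prop :=
  ∃ _ : LinearOrder (G ⧸ K), ∀ (g : G) (x y : G ⧸ K), x < y → move g x < move g y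

section
variable {G : Type u} [Group G]

theorem kerDim_eq (α : G →₀ ℂ) : kerDim α = kDim α := rfl

theorem part_eq (K : Subgroup G) (α : G →₀ ℂ) (x y : G ⧸ K) : part K α x y = cpart K α x y := rfl

theorem kerDim_pos (α : G →₀ ℂ) (h : ¬ Regular α) : 0 < kerDim α := by
  by_contra hcon
  push Not at hcon
  apply h
  apply (W649.ZL.regular_iff α).2
  apply W649.ZL.injective_of_vd_eq_zero _ (W649.ZL.cop_eqv _)
  rw [← kDim_eq]
  exact hcon

theorem kerDim_zero (α : G →₀ ℂ) (h : Function.Injective (W649.ZL.cop α)) : kerDim α = 0 := by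
  rw [kerDim_eq, kDim_eq]
  exact W649.ZL.vd_ker_of_injective _ h

theorem small_boundary (K : Subgroup G) [DecidableEq (G ⧸ K)] (hK : CoAmenable K) (α : G →₀ ℂ)
    (ε : ℝ) (hε : 0 < ε) :
    ∃ F : Finset (G ⧸ K), F.Nonempty ∧ ((bdF K F α).card : ℝ) ≤ ε * F.card := by
  classical
  set S := α.support with hS
  set ε' : ℝ := ε / (S.card + 1) with hε'
  have hε'0 : 0 < ε' := by positivity
  obtain ⟨F, hF, hb⟩ := hK ((S ×ˢ S).image fun p => p.1⁻¹ * p.2) ε' hε'0
  refine ⟨F, hF, ?_⟩
  set B : Finset (G ⧸ K) := F.filter fun x => ∃ s ∈ (S ×ˢ S).image fun p => p.1⁻¹ * p.2,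
    s • x ∉ F with hB
  have hBn : ({x | x ∈ F ∧ ∃ s ∈ (S ×ˢ S).image fun p => p.1⁻¹ * p.2, move s x ∉ F} :
      Set (G ⧸ K)).ncard = B.card := by
    rw [← Set.ncard_coe_finset]
    congr 1
    ext x
    rw [Finset.mem_coe, hB, Finset.mem_filter]
    rfl
  rw [hBn] at hb
  have h1 : (bdF K F α).image Subtype.val ⊆ (S ×ˢ B).image fun p => p.1 • p.2 := by
    intro y0 hy0
    obtain ⟨⟨y, hy⟩, h2, rfl⟩ := Finset.mem_image.1 hy0
    obtain ⟨s', hs', hs'F⟩ := (Finset.mem_filter.1 h2).2
    obtain ⟨⟨s, x⟩, h3, h4⟩ := Finset.mem_image.1 hy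
    obtain ⟨hs, hx⟩ := Finset.mem_product.1 h3
    rw [Finset.mem_image]
    refine ⟨(s, x), Finset.mem_product.2 ⟨hs, Finset.mem_filter.2 ⟨hx, s'⁻¹ * s,
      Finset.mem_image.2 ⟨(s', s), Finset.mem_product.2 ⟨hs', hs⟩, rfl⟩, ?_⟩⟩, h4⟩
    rw [mul_smul]
    have h5 : s • x = y := h4
    rw [h5]
    exact hs'F
  have h2 : (bdF K F α).card ≤ S.card * B.card := by
    rw [← Finset.card_image_of_injective (bdF K F α) Subtype.val_injective]
    refine (Finset.card_le_card h1).trans ?_
    refine Finset.card_image_le.trans ?_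
    rw [Finset.card_product]
  have h3 : ((bdF K F α).card : ℝ) ≤ S.card * B.card := by exact_mod_cast h2
  have hFc : (0 : ℝ) ≤ F.card := by positivity
  calc ((bdF K F α).card : ℝ) ≤ S.card * B.card := h3
    _ ≤ S.card * (ε' * F.card) := by gcongr
    _ = (S.card * ε') * F.card := by ring
    _ ≤ ε * F.card := by
        apply mul_le_mul_of_nonneg_right _ hFc
        rw [hε', mul_div_assoc', div_le_iff₀ (by positivity)]
        nlinarith

theorem main (K : Subgroup G) (hK : CoAmenable K) (α : G →₀ ℂ) (hα : α ≠ 0)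
    (hP : Peaks K α.support) :
    ∃ x y : G ⧸ K, part K α x y ≠ 0 ∧ kerDim α ≤ kerDim (part K α x y) := by
  classical
  set R : Set ℝ := {c | ∃ x y : G ⧸ K, cpart K α x y ≠ 0 ∧ kDim (cpart K α x y) = c} with hR
  have hfin : R.Finite := by
    refine ((α.support.powerset.finite_toSet).image
      (fun T : Finset G => kDim (α.filter (fun s => s ∈ T)))).subset ?_
    rintro c ⟨x, y, -, rfl⟩
    refine ⟨(cpart K α x y).support, ?_, ?_⟩
    · rw [Finset.mem_coe, Finset.mem_powerset]
      exact fun s hs => ((mem_cpart K α x y s).1 hs).1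
    · change kDim _ = kDim _
      congr 1
      ext s
      by_cases hs : s ∈ (cpart K α x y).support
      · rw [Finsupp.filter_apply_pos (fun s => s ∈ (cpart K α x y).support) α hs,
          cpart_apply K α x y s ((mem_cpart K α x y s).1 hs).2]
      · rw [Finsupp.filter_apply_neg (fun s => s ∈ (cpart K α x y).support) α hs,
          Finsupp.notMem_support_iff.1 hs]
  have hne : hfin.toFinset.Nonempty := by
    obtain ⟨s, hs⟩ := Finsupp.support_nonempty_iff.2 hα
    refine ⟨_, hfin.mem_toFinset.2 ⟨((1 : G) : G ⧸ K), s • ((1 : G) : G ⧸ K), ?_, rfl⟩⟩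
    intro h0
    have h1 : s ∈ (cpart K α ((1 : G) : G ⧸ K) (s • ((1 : G) : G ⧸ K))).support :=
      (mem_cpart K α _ _ s).2 ⟨hs, rfl⟩
    rw [h0] at h1
    simp at h1
  obtain ⟨c, hc, hmax⟩ := Finset.exists_max_image hfin.toFinset id hne
  obtain ⟨x, y, hxy, hxc⟩ := hfin.mem_toFinset.1 hc
  refine ⟨x, y, hxy, ?_⟩
  rw [kerDim_eq, kerDim_eq, part_eq, hxc]
  by_contra hcon
  push Not at hcon
  obtain ⟨F, hF, hb⟩ := small_boundary K hK α ((kDim α - c) / 2) (by linarith)
  have h1 := peak_lower K F Quotient.out (fun x => Quotient.out_eq x) α c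
    (fun x y h => hmax _ (hfin.mem_toFinset.2 ⟨x, y, h, rfl⟩)) hP
  have hFc : (0 : ℝ) < F.card := by exact_mod_cast hF.card_pos
  nlinarith

/-- right translate of an element of the group algebra -/
theorem cop_right (a : G) (α : G →₀ ℂ) :
    W649.ZL.cop (α.mapDomain (fun x => x * a)) = (W649.ZL.cop α).comp (W649.ZL.Ltr a) := by
  induction α using Finsupp.induction_linear with
  | zero => rw [Finsupp.mapDomain_zero, map_zero, ContinuousLinearMap.zero_comp]
  | add p q hp hq => rw [Finsupp.mapDomain_add, map_add, hp, hq, map_add,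
      ContinuousLinearMap.add_comp]
  | single x c =>
    rw [Finsupp.mapDomain_single, W649.ZL.cop_single, W649.ZL.cop_single, W649.ZL.Ltr_mul,
      ContinuousLinearMap.smul_comp]

theorem part_injective (K : Subgroup G) (hreg : ∀ β : K →₀ ℂ, β ≠ 0 → Regular β) (α : G →₀ ℂ)
    (x y : G ⧸ K) (h : part K α x y ≠ 0) : Function.Injective (W649.ZL.cop (part K α x y)) := by
  classical
  obtain ⟨a, rfl⟩ := QuotientGroup.mk_surjective x
  obtain ⟨b, rfl⟩ := QuotientGroup.mk_surjective y
  set π := part K α (a : G ⧸ K) (b : G ⧸ K) with hπ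
  set δ := π.mapDomain (fun s => b⁻¹ * s) with hδ
  set γ := δ.mapDomain (fun s => s * a) with hγ
  have hinj1 : Function.Injective (fun s : G => b⁻¹ * s) := mul_right_injective b⁻¹
  have hinj2 : Function.Injective (fun s : G => s * a) := mul_left_injective a
  have hγ0 : γ ≠ 0 := by
    intro h0
    apply h
    apply Finsupp.mapDomain_injective hinj1
    rw [Finsupp.mapDomain_zero, ← hδ]
    apply Finsupp.mapDomain_injective hinj2
    rw [Finsupp.mapDomain_zero, ← hγ, h0]
  have hsup : ∀ t ∈ γ.support, t ∈ K := by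
    intro t ht
    rw [hγ, Finsupp.mapDomain_support_of_injective hinj2, Finset.mem_image] at ht
    obtain ⟨u, hu, rfl⟩ := ht
    rw [hδ, Finsupp.mapDomain_support_of_injective hinj1, Finset.mem_image] at hu
    obtain ⟨s, hs, rfl⟩ := hu
    have h1 := ((mem_cpart K α (a : G ⧸ K) (b : G ⧸ K) s).1 hs).2
    have h2 : ((b : G) : G ⧸ K) = ((s * a : G) : G ⧸ K) := h1.symm
    rw [QuotientGroup.eq] at h2
    change b⁻¹ * s * a ∈ K
    rw [mul_assoc]
    exact h2
  have h1 : Function.Injective (W649.ZL.cop γ) := by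
    apply W649.ZL.injective_of_subgroup K γ hsup
    apply (W649.ZL.regular_iff _).1
    apply hreg
    intro h0
    apply hγ0
    ext t
    by_cases ht : t ∈ γ.support
    · have h2 := DFunLike.congr_fun h0 ⟨t, hsup t ht⟩
      rw [Finsupp.comapDomain_apply] at h2
      exact h2
    · exact Finsupp.notMem_support_iff.1 ht
  have h2 : Function.Injective (W649.ZL.cop δ) := by
    have h3 : W649.ZL.cop δ = (W649.ZL.cop γ).comp (W649.ZL.Ltr a⁻¹) := by
      rw [hγ, cop_right, ContinuousLinearMap.comp_assoc, ← W649.ZL.Ltr_mul, mul_inv_cancel,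
        W649.ZL.Ltr_one, ContinuousLinearMap.comp_id]
    rw [h3]
    exact h1.comp (W649.ZL.Ltr_injective a⁻¹)
  rw [hδ, W649.ZL.cop_mapDomain] at h2
  exact Function.Injective.of_comp (f := W649.ZL.Ltr b⁻¹) h2

theorem of_ordered (K : Subgroup G) (h : Ordered K) : UniqueProducts K := by
  obtain ⟨inst, hinv⟩ := h
  intro S hS F hF
  obtain ⟨x, hx, hmax⟩ := Finset.exists_max_image F id hF
  obtain ⟨t, ht, htmax⟩ := Finset.exists_max_image S (fun s => s • x) hS
  refine ⟨x, hx, t, ht, fun z hz s hs hst => ?_⟩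
  by_contra hne
  have h1 : z < x := lt_of_le_of_ne (hmax z hz) hne
  have h2 : s • z < s • x := hinv s z x h1
  have h3 : s • x ≤ t • x := htmax s hs
  have hst' : s • z = t • x := hst
  rw [hst'] at h2
  exact absurd (h2.trans_le h3) (lt_irrefl _)

end

/-- **Analytic zero divisors and co-amenable subgroups with unique products.** Let `K` be a
co-amenable subgroup of `G`, not necessarily normal.

(1) Let `α` be a nonzero element of the complex group algebra of `G` with support `S` and suppose
that every nonempty finite set `F` of cosets contains a coset `x` such that some coset in `S x` is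
not in `S z` for the other `z` in `F`. Then there are cosets `x`, `y` such that the part `β` of `α`
on the set of the `s` with `s x = y` is nonzero and the kernel of `α` on `ℓ²(G)` has at most the
von Neumann dimension of the kernel of `β`.

(2) If this property of the action of `G` on the cosets holds for all nonempty finite `S` and all
nonzero elements of `ℂK` are regular on `ℓ²(K)`, then all nonzero elements of `ℂG` are regular
on `ℓ²(G)`.

(3) The property in (2) holds if there is a total order on the set of cosets invariant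
under `G`. -/
theorem result {G : Type u} [Group G] (K : Subgroup G) :
    (CoAmenable K → ∀ α : G →₀ ℂ, α ≠ 0 → Peaks K α.support →
      ∃ x y : G ⧸ K, part K α x y ≠ 0 ∧ kerDim α ≤ kerDim (part K α x y)) ∧
    (CoAmenable K → UniqueProducts K → (∀ β : K →₀ ℂ, β ≠ 0 → Regular β) →
      ∀ α : G →₀ ℂ, α ≠ 0 → Regular α) ∧
    (Ordered K → UniqueProducts K) := by
  refine ⟨fun hK α hα hP => main K hK α hα hP, fun hK hU hreg α hα => ?_, of_ordered K⟩
  obtain ⟨x, y, h1, h2⟩ := main K hK α hα (hU _ (Finsupp.support_nonempty_iff.2 hα))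
  by_contra hcon
  have h3 := kerDim_pos α hcon
  rw [kerDim_zero _ (part_injective K hreg α x y h1)] at h2
  linarith

end Pool.Agent.Results.MP_0f25e6_al.UniqueProductActions
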